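import Pool.Agent.Helper75.PY.Stmts2

set_option autoImplicit false

universe u

open Module

namespace Pool.Agent.Helper10.PY

open Pool.Agent.Helper75.PX Pool.Agent.Helper75.PY

/-- multiplication table of the commutative subalgebra generated by `y` -/
lemma tab {K A : Type u} [Field K] [Ring A] [Algebra K A] {y : A} {t : K}
    (hy : y * y * y = t • (y * y) + (t + 3) • y + 1) (a b c a' b' c' : K) :
    (a • (y * y) + b • y + c • (1 : A)) * (a' • (y * y) + b' • y + c' • (1 : A)) =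
      (a * a' * (t ^ 2 + (t + 3)) + (a * b' + a' * b) * t + a * c' + a' * c + b * b') • (y * y) +
      (a * a' * (t * (t + 3) + 1) + (a * b' + a' * b) * (t + 3) + b * c' + b' * c) • y +
      (a * a' * t + (a * b' + a' * b) + c * c') • (1 : A) := by
  have h4 : y * y * y * y = (t ^ 2 + (t + 3)) • (y * y) + (t * (t + 3) + 1) • y + t • (1 : A) := by
    rw [hy, add_mul, add_mul, smul_mul_assoc, smul_mul_assoc, one_mul, hy]
    module
  simp only [mul_add, add_mul, smul_mul_assoc, mul_smul_comm, mul_one, one_mul, ← mul_assoc]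
  rw [h4, hy]
  module

/-- equality of combinations from equality of coefficients -/
lemma cmb {K A : Type u} [Field K] [Ring A] [Algebra K A] {y : A} {a b c a' b' c' : K}
    (h1 : a = a') (h2 : b = b') (h3 : c = c') :
    a • (y * y) + b • y + c • (1 : A) = a' • (y * y) + b' • y + c' • (1 : A) := by
  rw [h1, h2, h3]

/-- row PM2: the parameter of a cyclic cubic algebra moves by a fractional transformation -/
theorem st_PM2 : Pool.Agent.Helper75.PY.ST_PM2.{u} := by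
  intro K A _ _ _ y u t c r h2 hD h
  obtain ⟨hy, huy, hu, hc⟩ := h
  obtain ⟨D, hDdef⟩ : ∃ D : K, D = r ^ 3 + (t + 1) * r ^ 2 + t * r + 1 := ⟨_, rfl⟩
  rw [← hDdef] at hD
  rw [← hDdef]
  obtain ⟨l, hl⟩ : ∃ l : K, l = (r ^ 2 + r + 1) / D := ⟨_, rfl⟩
  obtain ⟨T, hT⟩ : ∃ T : K, T = t + (t ^ 2 + t + 1) * (r ^ 2 + r) / D := ⟨_, rfl⟩
  have hl' : l * D = r ^ 2 + r + 1 := by rw [hl]; field_simp
  have hT' : T * D = t * D + (t ^ 2 + t + 1) * (r ^ 2 + r) := by rw [hT]; field_simp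
  rw [← hl, ← hT]
  have hY : r • (1 : A) + l • (y * y + (r + 1 + t) • y + (r ^ 2 + t * r) • (1 : A)) =
      l • (y * y) + (l * (r + 1 + t)) • y + (r + l * (r ^ 2 + t * r)) • (1 : A) := by module
  rw [hY]
  have hs : y * y - (t + 1) • y - 2 = (1 : K) • (y * y) + (-(t + 1)) • y + (-2 : K) • (1 : A) := by
    have e : (-2 : K) • (1 : A) = -2 := by
      rw [Algebra.smul_def, mul_one, map_neg, map_ofNat]
    rw [e]
    module
  refine ⟨?_, ?_, hu, hc⟩
  · rw [tab hy, tab hy]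
    have e : ∀ a b c a' b' c' : K, T • (a • (y * y) + b • y + c • (1 : A)) +
        (T + 3) • (a' • (y * y) + b' • y + c' • (1 : A)) + 1 =
        (T * a + (T + 3) * a') • (y * y) + (T * b + (T + 3) * b') • y +
        (T * c + (T + 3) * c' + 1) • (1 : A) := by
      intros; module
    rw [e]
    apply cmb
    · rw [hl, hT]
      field_simp
      subst hDdef
      linear_combination ((((9) + (23)*t^1 + (25)*t^2 + (10)*t^3 + (4)*t^4) + ((44) + (98)*t^1 + (90)*t^2 + (37)*t^3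
        + (8)*t^4)*r^1 + ((108) + (242)*t^1 + (205)*t^2 + (78)*t^3 + (12)*t^4)*r^2 + ((183) +
        (400)*t^1 + (312)*t^2 + (106)*t^3 + (8)*t^4)*r^3 + ((235) + (491)*t^1 + (364)*t^2 +
        (99)*t^3 + (4)*t^4)*r^4 + ((238) + (470)*t^1 + (314)*t^2 + (66)*t^3)*r^5 + ((198) +
        (359)*t^1 + (206)*t^2 + (28)*t^3)*r^6 + ((135) + (218)*t^1 + (89)*t^2 + (8)*t^3)*r^7 +
        ((77) + (95)*t^1 + (24)*t^2)*r^8 + ((33) + (25)*t^1)*r^9 + ((9))*r^10) : K) * h2
    · rw [hl, hT]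
      field_simp
      subst hDdef
      linear_combination ((((18) + (41)*t^1 + (35)*t^2 + (19)*t^3 + (4)*t^4) + ((83) + (173)*t^1 + (136)*t^2 +
        (54)*t^3 + (9)*t^4)*r^1 + ((206) + (421)*t^1 + (313)*t^2 + (101)*t^3 + (12)*t^4)*r^2 +
        ((345) + (694)*t^1 + (476)*t^2 + (111)*t^3 + (2)*t^4)*r^3 + ((441) + (855)*t^1 + (522)*t^2
        + (84)*t^3 + (-11)*t^4)*r^4 + ((446) + (801)*t^1 + (426)*t^2 + (32)*t^3 + (-18)*t^4)*r^5 +
        ((368) + (595)*t^1 + (259)*t^2 + (-1)*t^3 + (-12)*t^4)*r^6 + ((247) + (348)*t^1 +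
        (122)*t^2 + (-9)*t^3 + (-4)*t^4)*r^7 + ((137) + (170)*t^1 + (41)*t^2 + (-4)*t^3)*r^8 +
        ((64) + (62)*t^1 + (10)*t^2)*r^9 + ((24) + (16)*t^1)*r^10 + ((6))*r^11) : K) * h2
    · rw [hl, hT]
      field_simp
      subst hDdef
      linear_combination ((((5) + (11)*t^1 + (7)*t^2 + (4)*t^3) + ((23) + (42)*t^1 + (29)*t^2 + (9)*t^3)*r^1 + ((57)
        + (102)*t^1 + (60)*t^2 + (13)*t^3)*r^2 + ((93) + (163)*t^1 + (80)*t^2 + (1)*t^3 +
        (-2)*t^4)*r^3 + ((117) + (188)*t^1 + (64)*t^2 + (-23)*t^3 + (-9)*t^4)*r^4 + ((114) +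
        (153)*t^1 + (16)*t^2 + (-48)*t^3 + (-19)*t^4)*r^5 + ((85) + (91)*t^1 + (-34)*t^2 +
        (-57)*t^3 + (-22)*t^4)*r^6 + ((52) + (29)*t^1 + (-40)*t^2 + (-47)*t^3 + (-14)*t^4)*r^7 +
        ((25) + (10)*t^1 + (-15)*t^2 + (-25)*t^3 + (-4)*t^4)*r^8 + ((12) + (23)*t^1 + (4)*t^2 +
        (-6)*t^3)*r^9 + ((13) + (27)*t^1 + (4)*t^2)*r^10 + ((12) + (10)*t^1)*r^11 + ((4))*r^12) : K) * h2
  · have e1 : ∀ a b c : K, u * (a • (y * y) + b • y + c • (1 : A)) =
        (a • ((y * y - (t + 1) • y - 2) * (y * y - (t + 1) • y - 2)) +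
          b • (y * y - (t + 1) • y - 2) + c • (1 : A)) * u := by
      intro a b c
      have e2 : u * (y * y) = ((y * y - (t + 1) • y - 2) * (y * y - (t + 1) • y - 2)) * u := by
        rw [← mul_assoc, huy, mul_assoc, huy, ← mul_assoc]
      rw [mul_add, mul_add, mul_smul_comm, mul_smul_comm, mul_smul_comm, e2, huy, add_mul,
        add_mul, smul_mul_assoc, smul_mul_assoc, smul_mul_assoc, mul_one, one_mul]
    rw [e1]
    congr 1
    rw [hs, tab hy, tab hy]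
    have e3 : (2 : A) = (2 : K) • (1 : A) := by
      rw [Algebra.smul_def, mul_one, map_ofNat]
    rw [e3]
    have e4 : ∀ a b c a' b' c' : K, a • (y * y) + b • y + c • (1 : A) -
        (T + 1) • (a' • (y * y) + b' • y + c' • (1 : A)) - (2 : K) • (1 : A) =
        (a - (T + 1) * a') • (y * y) + (b - (T + 1) * b') • y +
        (c - (T + 1) * c' - 2) • (1 : A) := by
      intros; module
    have e5 : ∀ m n p a b c a' b' c' : K, m • (a • (y * y) + b • y + c • (1 : A)) +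
        n • (a' • (y * y) + b' • y + c' • (1 : A)) + p • (1 : A) =
        (m * a + n * a') • (y * y) + (m * b + n * b') • y + (m * c + n * c' + p) • (1 : A) := by
      intros; module
    rw [e4, e5]
    apply cmb
    · rw [hl, hT]
      field_simp
      subst hDdef
      linear_combination ((((-1) + (-1)*t^1 + (-2)*t^2) + ((-4) + (-5)*t^1 + (-2)*t^2)*r^1 + ((-7) + (-8)*t^1 +
        (-2)*t^2)*r^2 + ((-8) + (-9)*t^1)*r^3 + ((-7) + (-5)*t^1)*r^4 + ((-4) + (-2)*t^1)*r^5 +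
        ((-2))*r^6) : K) * h2
    · rw [hl, hT]
      field_simp
      subst hDdef
      linear_combination ((((-4) + (-6)*t^1 + (-2)*t^2) + ((-11) + (-14)*t^1 + (-4)*t^2)*r^1 + ((-19) + (-24)*t^1 +
        (-7)*t^2)*r^2 + ((-21) + (-25)*t^1 + (-7)*t^2)*r^3 + ((-18) + (-21)*t^1 + (-5)*t^2)*r^4 +
        ((-12) + (-11)*t^1 + (-2)*t^2)*r^5 + ((-6) + (-4)*t^1)*r^6 + ((-2))*r^7) : K) * h2
    · rw [hl, hT]
      field_simp
      subst hDdef
      linear_combination ((((-3)*t^1) + ((-3) + (-1)*t^1 + (-1)*t^2)*r^1 + ((-3) + (-3)*t^1 + (1)*t^2 + (1)*t^3)*r^2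
        + ((-2) + (5)*t^2 + (3)*t^3)*r^3 + ((-1) + (3)*t^1 + (6)*t^2 + (4)*t^3)*r^4 + ((4)*t^1 +
        (5)*t^2 + (2)*t^3)*r^5 + ((1) + (-1)*t^1 + (1)*t^2)*r^6 + ((-2) + (-3)*t^1)*r^7 +
        ((-2))*r^8) : K) * h2

end Pool.Agent.Helper10.PY
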